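import Pool.Agent.Lib.MP_41a716_co.Final

set_option autoImplicit false

namespace Pool.Agent.Results.MP_41a716_co.Cusp

open Filter

/-- factor complexity: the number of distinct factors of length `n`. -/
noncomputable def p {A : Type} (u : ℕ → A) (n : ℕ) : ℕ :=
  (Set.range fun i : ℕ => fun k : Fin n => u (i + k)).ncard

/-- the set of pairs (liminf p(n)/n, limsup p(n)/n) over words of linear complexity. -/
def S : Set (ℝ × ℝ) :=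
  {x | ∃ (A : Type) (_ : Finite A) (u : ℕ → A), (∃ C : ℝ, ∀ n : ℕ, 1 ≤ n → (p u n : ℝ) ≤ C * n) ∧
    x.1 = liminf (fun n : ℕ => (p u n : ℝ) / n) atTop ∧
    x.2 = limsup (fun n : ℕ => (p u n : ℝ) / n) atTop}

theorem result : ∀ e : ℝ, 0 < e → ∃ d : ℝ, 0 < d ∧ ∀ b : ℝ, 0 < b → b < d →
    (∀ x ∈ S, x.2 ≤ 1 + b → x.1 ≤ 1 + (1 + e) * (b * √b)) ∧
      ∃ x ∈ S, x.2 ≤ 1 + b ∧ 1 + (1 - e) * (b * √b) ≤ x.1 := by
  have hp : ∀ {A : Type} (u : ℕ → A), p u = Lib.MP_41a716_co.pc u := fun u =>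
    funext fun n => Lib.MP_41a716_co.pc_range u n
  have h1 : ∀ x ∈ S, 1 ≤ x.1 → x.2 < 2 →
      x.1 ≤ x.2 ∧ (x.1 - 1) ^ 2 * (2 - x.2) ^ 3 ≤ (x.2 - 1) ^ 3 * (2 - x.1) ^ 3 := by
    rintro x ⟨A, _, u, ⟨C, hC⟩, ha, hb⟩ g1 g2
    rw [hp] at hC ha hb
    exact Lib.MP_41a716_co.lower_all u C hC ha hb g1 g2
  have h2 : ∀ A : ℕ, 1 ≤ A →
      ∃ x ∈ S, x.2 ≤ 1 + 1 / (A : ℝ) ^ 2 ∧ 1 + 1 / ((A : ℝ) + 4) ^ 3 ≤ x.1 := by
    intro A hA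
    obtain ⟨g1, g2, g3⟩ := Lib.MP_41a716_co.fam_main A hA
    rw [← hp] at g1 g2 g3
    exact ⟨(_, _), ⟨Bool, inferInstance, Lib.MP_41a716_co.wd A, g1, rfl, rfl⟩, g2, g3⟩
  exact Lib.MP_41a716_co.asym S h1 h2

end Pool.Agent.Results.MP_41a716_co.Cusp
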