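import Pool.Agent.Lib.MP_41a716_co.H52Final

set_option autoImplicit false

namespace Pool.Agent.Results.MP_41a716_co.ExactStrip

open Filter

/-- factor complexity: the number of distinct factors of length `n`. -/
noncomputable def p {A : Type} (u : ℕ → A) (n : ℕ) : ℕ :=
  (Set.range fun i : ℕ => fun k : Fin n => u (i + k)).ncard

/-- the set of pairs (liminf p(n)/n, limsup p(n)/n) over words of linear complexity. -/
def S : Set (ℝ × ℝ) :=
  {x | ∃ (A : Type) (_ : Finite A) (u : ℕ → A), (∃ C : ℝ, ∀ n : ℕ, 1 ≤ n → (p u n : ℝ) ≤ C * n) ∧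
    x.1 = liminf (fun n : ℕ => (p u n : ℝ) / n) atTop ∧
    x.2 = limsup (fun n : ℕ => (p u n : ℝ) / n) atTop}

theorem result (a b : ℝ)
    (h1 : 1 < a → a < 3 / 2 → a ≤ b → b < 2 →
      (a - 1) * (2 - b) ^ 2 ≤ (b - 1) * (2 - a) * (b - a))
    (h2 : ∀ k : ℕ, 2 ≤ k → k < a → a ≤ b → b < k + 1 →
      (a - k) * (k + 1 - a) ≤ (a - 1) * (b - a)) :
    (a, b) ∈ S ↔ (a = 0 ∧ b = 0) ∨ (1 ≤ a ∧ a ≤ b ∧
      (b < 2 → (a - 1) * (2 - b) ^ 2 ≤ (b - 1) * (2 - a) * (b - a))) := by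
  have hp : ∀ {A : Type} (u : ℕ → A), p u = Lib.MP_41a716_co.pc u := fun u =>
    funext fun n => Lib.MP_41a716_co.pc_range u n
  have mem : ∀ {a b : ℝ}, Lib.MP_41a716_co.H52.Real2 a b → (a, b) ∈ S := by
    rintro a b ⟨u, h1, h2, h3⟩
    rw [← hp] at h1 h2 h3
    exact ⟨Bool, inferInstance, u, h1, h2, h3⟩
  constructor
  · rintro ⟨A, _, u, ⟨C, hC⟩, ha, hb⟩
    rw [hp] at hC ha hb
    refine (Lib.MP_41a716_co.H52.morse u C hC ha hb).imp id fun ⟨g1, g2⟩ => ⟨g1, g2, fun c => ?_⟩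
    simp only at g1 g2
    rcases le_or_gt (3 / 2) a with d | d
    · exact Lib.MP_41a716_co.H52.lower_exact u C hC ha hb d c
    · rcases g1.lt_or_eq with e | e
      · exact h1 e d g2 c
      · subst e; nlinarith [mul_self_nonneg (b - 1)]
  · rintro (⟨rfl, rfl⟩ | ⟨g1, g2, g3⟩)
    · exact mem Lib.MP_41a716_co.H52.real_zero
    · rcases le_or_gt a 2 with d | d
      · exact mem (Lib.MP_41a716_co.H52.real_T1 g1 d g2 ((le_or_gt 2 b).imp id g3))
      · by_cases h : ∃ k : ℕ, (k : ℝ) < a ∧ b < k + 1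
        · obtain ⟨k, k1, k2⟩ := h
          have k3 : 2 ≤ k := by
            have : (1 : ℝ) < k := by linarith
            exact_mod_cast this
          exact mem (Lib.MP_41a716_co.H52.real_T3 (k := k) (by omega) k1.le (by linarith) g2
            (h2 k k3 k1 g2 k2))
        · exact mem (Lib.MP_41a716_co.H52.real_off h g1 g2)

end Pool.Agent.Results.MP_41a716_co.ExactStrip
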