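import Pool.Agent.Lib.MP_41a716_co.SlC

set_option autoImplicit false

namespace Pool.Agent.Results.MP_41a716_co.SliverBound

open Filter

/-- factor complexity: the number of distinct factors of length `n`. -/
noncomputable def p {A : Type} (u : ℕ → A) (n : ℕ) : ℕ :=
  (Set.range fun i : ℕ => fun k : Fin n => u (i + k)).ncard

/-- the set of pairs (liminf p(n)/n, limsup p(n)/n) over words of linear complexity. -/
def S : Set (ℝ × ℝ) :=
  {x | ∃ (A : Type) (_ : Finite A) (u : ℕ → A), (∃ C : ℝ, ∀ n : ℕ, 1 ≤ n → (p u n : ℝ) ≤ C * n) ∧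
    x.1 = liminf (fun n : ℕ => (p u n : ℝ) / n) atTop ∧
    x.2 = limsup (fun n : ℕ => (p u n : ℝ) / n) atTop}

theorem result (a b : ℝ) (h : (a, b) ∈ S) (k : ℕ) (ha : k < a) (hb : b < k + 1) :
    (a - k) * (k + 1 - b) ≤ 14 * (k + 1) * Real.logb 2 (28 * (k + 1)) * (b - a) := by
  obtain ⟨A, _, u, ⟨C, hC⟩, h1, h2⟩ := h
  have hp : p u = Lib.MP_41a716_co.pc u := funext fun n => Lib.MP_41a716_co.pc_range u n
  rw [hp] at hC h1 h2
  exact Lib.MP_41a716_co.slC_main u C hC h1 h2 ha hb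

end Pool.Agent.Results.MP_41a716_co.SliverBound
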